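import Pool.Agent.Q5.SG.Stm

/-!
# Job SG-CN (helper156): a polynomial divisible by `p^N` at the roots of unity of the orders `p^j`, `j ∈ J`
-/

set_option autoImplicit false

namespace Pool.Agent.Q156.SG.CN

open Polynomial

/-- `Φ_b ≡ p` modulo `Φ_a` for `1 ≤ a < b`. -/
lemma cyc_mod (p : ℕ) [hp : Fact p.Prime] {a b : ℕ} (hab : a < b) :
    ∃ q : ℤ[X], cyclotomic (p ^ b) ℤ = C (p : ℤ) + cyclotomic (p ^ a) ℤ * q := by
  obtain ⟨b', rfl⟩ : ∃ b', b = b' + 1 := ⟨b - 1, by omega⟩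
  have h1 : cyclotomic (p ^ (b' + 1)) ℤ = ∑ i ∈ Finset.range p, (X ^ p ^ b') ^ i :=
    cyclotomic_prime_pow_eq_geom_sum hp.out
  have h2 : cyclotomic (p ^ a) ℤ ∣ X ^ p ^ b' - 1 := by
    refine (cyclotomic.dvd_X_pow_sub_one _ _).trans ?_
    obtain ⟨c, hc⟩ := pow_dvd_pow p (show a ≤ b' by omega)
    rw [hc, pow_mul]
    exact sub_one_dvd_pow_sub_one _ _
  have h3 : cyclotomic (p ^ a) ℤ ∣ cyclotomic (p ^ (b' + 1)) ℤ - C (p : ℤ) := by
    have e : cyclotomic (p ^ (b' + 1)) ℤ - C (p : ℤ) =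
        ∑ i ∈ Finset.range p, (((X : ℤ[X]) ^ p ^ b') ^ i - 1) := by
      rw [h1, Finset.sum_sub_distrib]
      simp
    rw [e]
    refine Finset.dvd_sum fun i _ => h2.trans (sub_one_dvd_pow_sub_one _ _)
  obtain ⟨q, hq⟩ := h3
  exact ⟨q, by rw [← hq]; ring⟩

/-- `p` is a combination of `Φ_a` and `Φ_b`, `a ≠ b`. -/
lemma bez (p : ℕ) [Fact p.Prime] {a b : ℕ} (hab : a ≠ b) :
    ∃ q r : ℤ[X], C (p : ℤ) = cyclotomic (p ^ a) ℤ * q + cyclotomic (p ^ b) ℤ * r := by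
  rcases lt_or_gt_of_ne hab with h | h
  · obtain ⟨q, hq⟩ := cyc_mod p h
    exact ⟨-q, 1, by rw [hq]; ring⟩
  · obtain ⟨q, hq⟩ := cyc_mod p h
    exact ⟨1, -q, by rw [hq]; ring⟩

/-- if `p` divides `Φ_j R` then it divides `R` -/
lemma dvd_of_dvd_cyc_mul (p : ℕ) [hp : Fact p.Prime] (n : ℕ) (R : ℤ[X])
    (h : C (p : ℤ) ∣ cyclotomic n ℤ * R) : C (p : ℤ) ∣ R := by
  have hpr : Prime (C (p : ℤ)) := prime_C_iff.2 (Nat.prime_iff_prime_int.1 hp.out)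
  rcases hpr.dvd_or_dvd h with h1 | h1
  · exfalso
    rw [C_dvd_iff_dvd_coeff] at h1
    have h2 := h1 (cyclotomic n ℤ).natDegree
    rw [coeff_natDegree, (cyclotomic.monic n ℤ).leadingCoeff] at h2
    have h3 := Int.le_of_dvd one_pos h2
    have h4 := hp.out.two_le
    omega
  · exact h1

/-- the step of the induction -/
lemma step (p : ℕ) [hp : Fact p.Prime] {a j N : ℕ} (haj : a ≠ j) (f h k h' k' : ℤ[X])
    (h1 : f = C ((p : ℤ) ^ (N + 1)) * h + cyclotomic (p ^ a) ℤ * k)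
    (h2 : f = C ((p : ℤ) ^ (N + 1)) * h' + cyclotomic (p ^ j) ℤ * k') :
    ∃ s t : ℤ[X], k = C ((p : ℤ) ^ N) * s + cyclotomic (p ^ j) ℤ * t := by
  obtain ⟨q, r, hqr⟩ := bez p haj
  have hp0 : C (p : ℤ) ≠ 0 := by
    rw [Ne, C_eq_zero]
    exact_mod_cast hp.out.ne_zero
  have e : C (p : ℤ) * (k - C ((p : ℤ) ^ N) * (q * (h' - h))) =
      cyclotomic (p ^ j) ℤ * (q * k' + r * k) := by
    have e1 : cyclotomic (p ^ a) ℤ * k =
        C ((p : ℤ) ^ (N + 1)) * (h' - h) + cyclotomic (p ^ j) ℤ * k' := by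
      linear_combination h2 - h1
    have e2 : C ((p : ℤ) ^ (N + 1)) = C (p : ℤ) * C ((p : ℤ) ^ N) := by
      rw [← C_mul, pow_succ']
    rw [e2] at e1
    linear_combination k * hqr + q * e1
  obtain ⟨t, ht⟩ := dvd_of_dvd_cyc_mul p _ _ (Dvd.intro _ e)
  rw [ht] at e
  refine ⟨q * (h' - h), t, ?_⟩
  have e3 : k - C ((p : ℤ) ^ N) * (q * (h' - h)) = cyclotomic (p ^ j) ℤ * t := by
    apply mul_left_cancel₀ hp0
    rw [e]
    ring
  linear_combination e3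

theorem cn (p : ℕ) [hp : Fact p.Prime] (J : Finset ℕ) : ∀ (N : ℕ) (f : ℤ[X]), (∀ j ∈ J, 1 ≤ j) →
  J.card ≤ N → (∀ j ∈ J, ∃ h k : ℤ[X], f = C ((p : ℤ) ^ N) * h + cyclotomic (p ^ j) ℤ * k) →
  (p : ℤ) ^ J.card ∣ f.eval 1 := by
  induction J using Finset.induction_on with
  | empty => intro N f _ _ _; simp
  | insert a J haJ ih =>
    intro N f hJ hN H
    rw [Finset.card_insert_of_notMem haJ] at hN ⊢
    obtain ⟨N', rfl⟩ : ∃ N', N = N' + 1 := ⟨N - 1, by omega⟩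
    obtain ⟨h, k, hk⟩ := H a (Finset.mem_insert_self _ _)
    have h1 : (p : ℤ) ^ J.card ∣ k.eval 1 := by
      refine ih N' k (fun j hj => hJ j (Finset.mem_insert_of_mem hj)) (by omega) ?_
      intro j hj
      obtain ⟨h', k', hk'⟩ := H j (Finset.mem_insert_of_mem hj)
      exact step p (by rintro rfl; exact haJ hj) f h k h' k' hk hk'
    have ha : 1 ≤ a := hJ a (Finset.mem_insert_self _ _)
    obtain ⟨a', rfl⟩ : ∃ a', a = a' + 1 := ⟨a - 1, by omega⟩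
    rw [hk, eval_add, eval_mul, eval_mul, eval_C, eval_one_cyclotomic_prime_pow]
    apply dvd_add
    · exact Dvd.dvd.mul_right (pow_dvd_pow _ (by omega)) _
    · rw [pow_succ']
      exact mul_dvd_mul_left _ h1

end Pool.Agent.Q156.SG.CN

/-- **Job SG-CN.** -/
theorem Pool.Agent.Q156.SG.t_CN : Pool.Agent.Q5.SG.S_CN :=
  fun p _ J N f h1 h2 h3 => Pool.Agent.Q156.SG.CN.cn p J N f h1 h2 h3
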