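import Pool.Agent.Q5.SG.Stm

/-!
# Job SG-CY (helper156): cyclotomic integers of `p`-power order in terms of polynomials
-/

set_option autoImplicit false

namespace Pool.Agent.Q156.SG.CY

open Polynomial

/-- `f = (X - 1) q + f(1)` -/
lemma split1 (f : ℤ[X]) : ∃ q : ℤ[X], f = (X - 1) * q + C (f.eval 1) := by
  obtain ⟨q, hq⟩ := X_sub_C_dvd_sub_C_eval (a := (1 : ℤ)) (p := f)
  refine ⟨q, ?_⟩
  rw [C_1] at hq
  rw [← hq]
  ring

/-- `p = (X - 1) Q + Φ` -/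
lemma p_eq (p : ℕ) [hp : Fact p.Prime] {j : ℕ} (hj : 1 ≤ j) :
    ∃ Q : ℤ[X], C (p : ℤ) = (X - 1) * Q + cyclotomic (p ^ j) ℤ := by
  obtain ⟨q, hq⟩ := split1 (cyclotomic (p ^ j) ℤ)
  obtain ⟨j', rfl⟩ : ∃ j', j = j' + 1 := ⟨j - 1, by omega⟩
  rw [eval_one_cyclotomic_prime_pow] at hq
  exact ⟨-q, by rw [hq]; ring⟩

/-- `(X - 1)^φ = Φ - p h` -/
lemma pow_phi (p : ℕ) [hp : Fact p.Prime] {j : ℕ} (hj : 1 ≤ j) :
    ∃ h : ℤ[X], (X - 1) ^ Nat.totient (p ^ j) = cyclotomic (p ^ j) ℤ + C (p : ℤ) * h := by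
  have h1 : C (p : ℤ) ∣ (X - 1) ^ Nat.totient (p ^ j) - cyclotomic (p ^ j) ℤ := by
    rw [C_dvd_iff_dvd_coeff]
    intro i
    have h2 : Polynomial.map (Int.castRingHom (ZMod p))
        ((X - 1) ^ Nat.totient (p ^ j) - cyclotomic (p ^ j) ℤ) = 0 := by
      rw [Polynomial.map_sub, Polynomial.map_pow, Polynomial.map_sub, map_X, Polynomial.map_one,
        map_cyclotomic]
      have h3 := cyclotomic_mul_prime_pow_eq (ZMod p) (p := p) (m := 1)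
        (fun h => hp.out.one_lt.ne' (Nat.dvd_one.1 h)) (k := j) (by omega)
      rw [mul_one, cyclotomic_one] at h3
      rw [h3, Nat.totient_prime_pow hp.out (by omega), sub_eq_zero]
      congr 1
      obtain ⟨j', rfl⟩ : ∃ j', j = j' + 1 := ⟨j - 1, by omega⟩
      simp only [Nat.add_sub_cancel]
      rw [pow_succ, Nat.mul_sub, mul_one]
    have h4 := congrArg (fun P => P.coeff i) h2
    simp only [coeff_map, coeff_zero] at h4
    rw [← ZMod.intCast_zmod_eq_zero_iff_dvd]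
    simpa using h4
  obtain ⟨h, hh⟩ := h1
  exact ⟨h, by rw [← hh]; ring⟩

/-- division by powers of `X - 1` -/
lemma desc (p : ℕ) [hp : Fact p.Prime] {j : ℕ} (hj : 1 ≤ j) (f : ℤ[X]) (M : ℕ) :
    (∃ (v : ℕ) (u k : ℤ[X]), v < M ∧ f = (X - 1) ^ v * u + cyclotomic (p ^ j) ℤ * k ∧
      ¬ (p : ℤ) ∣ u.eval 1) ∨
    ∃ u k : ℤ[X], f = (X - 1) ^ M * u + cyclotomic (p ^ j) ℤ * k := by
  induction M with
  | zero => exact Or.inr ⟨f, 0, by simp⟩
  | succ M ih =>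
    rcases ih with ⟨v, u, k, hv, h1, h2⟩ | ⟨u, k, h1⟩
    · exact Or.inl ⟨v, u, k, by omega, h1, h2⟩
    · by_cases hu : (p : ℤ) ∣ u.eval 1
      · right
        obtain ⟨m, hm⟩ := hu
        obtain ⟨q, hq⟩ := split1 u
        obtain ⟨Q, hQ⟩ := p_eq p hj
        rw [hm, C_mul, hQ] at hq
        refine ⟨q + Q * C m, (X - 1) ^ M * C m + k, ?_⟩
        rw [h1]
        nth_rewrite 1 [hq]
        ring
      · exact Or.inl ⟨M, u, k, by omega, h1, hu⟩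

/-- a polynomial `u` with `u(1)` prime to `p` divides an integer prime to `p` modulo `Φ` -/
lemma copr (p : ℕ) [hp : Fact p.Prime] {j : ℕ} (hj : 1 ≤ j) (u : ℤ[X])
    (hu : ¬ (p : ℤ) ∣ u.eval 1) :
    ∃ (g k : ℤ[X]) (c : ℤ), ¬ (p : ℤ) ∣ c ∧ g * u = C c + cyclotomic (p ^ j) ℤ * k := by
  have htop : Ideal.span ({u, C (p : ℤ), cyclotomic (p ^ j) ℤ} : Set ℤ[X]) = ⊤ := by
    by_contra hne
    obtain ⟨P, hP, hle⟩ := Ideal.exists_le_maximal _ hne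
    have m1 : u ∈ P := hle (Ideal.subset_span (by simp))
    have m2 : C (p : ℤ) ∈ P := hle (Ideal.subset_span (by simp))
    have m3 : cyclotomic (p ^ j) ℤ ∈ P := hle (Ideal.subset_span (by simp))
    obtain ⟨h, hh⟩ := pow_phi p hj
    have m4 : (X - 1 : ℤ[X]) ^ Nat.totient (p ^ j) ∈ P := by
      rw [hh]
      exact P.add_mem m3 (P.mul_mem_right _ m2)
    have m5 : (X - 1 : ℤ[X]) ∈ P := hP.isPrime.mem_of_pow_mem _ m4
    obtain ⟨q, hq⟩ := split1 u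
    have m6 : C (u.eval 1) ∈ P := by
      have : C (u.eval 1) = u - (X - 1) * q := by rw [eq_sub_iff_add_eq, add_comm]; exact hq.symm
      rw [this]
      exact P.sub_mem m1 (P.mul_mem_right _ m5)
    have hc : IsCoprime (p : ℤ) (u.eval 1) :=
      (Prime.coprime_iff_not_dvd (Nat.prime_iff_prime_int.1 hp.out)).2 hu
    obtain ⟨a, b, hab⟩ := hc
    apply hP.ne_top
    rw [Ideal.eq_top_iff_one]
    have : (1 : ℤ[X]) = C a * C (p : ℤ) + C b * C (u.eval 1) := by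
      rw [← C_mul, ← C_mul, ← C_add, hab, C_1]
    rw [this]
    exact P.add_mem (P.mul_mem_left _ m2) (P.mul_mem_left _ m6)
  have h1 : (1 : ℤ[X]) ∈ Ideal.span ({u, C (p : ℤ), cyclotomic (p ^ j) ℤ} : Set ℤ[X]) := by
    rw [htop]; trivial
  rw [Ideal.mem_span_insert] at h1
  obtain ⟨a, z, hz, hz1⟩ := h1
  rw [Ideal.mem_span_pair] at hz
  obtain ⟨b, c, hbc⟩ := hz
  rw [← hbc] at hz1
  have hfin : Module.Finite ℤ (AdjoinRoot (cyclotomic (p ^ j) ℤ)) :=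
    (cyclotomic.monic _ _).finite_adjoinRoot
  let A := AdjoinRoot (cyclotomic (p ^ j) ℤ)
  let I : Ideal A := Ideal.span {AdjoinRoot.mk _ u}
  have hfin2 : Module.Finite ℤ (A ⧸ I) := inferInstance
  have hone : (1 : A ⧸ I) = (p : ℤ) • Ideal.Quotient.mk I (AdjoinRoot.mk _ b) := by
    have e1 : (1 : A) = AdjoinRoot.mk _ a * AdjoinRoot.mk _ u +
        (p : ℤ) • AdjoinRoot.mk (cyclotomic (p ^ j) ℤ) b := by
      have e2 := congrArg (AdjoinRoot.mk (cyclotomic (p ^ j) ℤ)) hz1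
      rw [map_one, map_add, map_add, map_mul, map_mul, map_mul, AdjoinRoot.mk_self, mul_zero,
        add_zero] at e2
      rw [e2]
      congr 1
      rw [mul_comm, zsmul_eq_mul]
      congr 1
    have e3 := congrArg (Ideal.Quotient.mk I) e1
    rw [map_one, map_add, map_mul, map_zsmul] at e3
    rw [e3]
    have e4 : Ideal.Quotient.mk I (AdjoinRoot.mk _ u) = 0 := by
      rw [Ideal.Quotient.eq_zero_iff_mem]
      exact Ideal.subset_span rfl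
    rw [e4, mul_zero, zero_add]
  have hN : (⊤ : Submodule ℤ (A ⧸ I)) ≤ (Ideal.span {(p : ℤ)}) • (⊤ : Submodule ℤ (A ⧸ I)) := by
    intro x _
    have : x = (p : ℤ) • (x * Ideal.Quotient.mk I (AdjoinRoot.mk _ b)) := by
      rw [← mul_smul_comm, ← hone, mul_one]
    rw [this]
    exact Submodule.smul_mem_smul (Ideal.subset_span rfl) trivial
  obtain ⟨r, hr1, hr2⟩ := Submodule.exists_sub_one_mem_and_smul_eq_zero_of_fg_of_le_smul
    (Ideal.span {(p : ℤ)}) (⊤ : Submodule ℤ (A ⧸ I)) (Module.Finite.fg_top) hN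
  have hr3 := hr2 1 trivial
  have hr4 : AdjoinRoot.mk (cyclotomic (p ^ j) ℤ) (C r) ∈ I := by
    rw [← Ideal.Quotient.eq_zero_iff_mem, ← hr3, ← map_one (Ideal.Quotient.mk I), ← map_zsmul]
    congr 1
    rw [zsmul_eq_mul, mul_one]
    simp
  rw [Ideal.mem_span_singleton'] at hr4
  obtain ⟨g', hg'⟩ := hr4
  obtain ⟨g, rfl⟩ := AdjoinRoot.mk_surjective g'
  rw [← map_mul, ← sub_eq_zero, ← map_sub, AdjoinRoot.mk_eq_zero] at hg'
  obtain ⟨k, hk⟩ := hg'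
  refine ⟨g, k, r, ?_, by rw [← hk]; ring⟩
  intro hpr
  rw [Ideal.mem_span_singleton] at hr1
  have h2 : (p : ℤ) ∣ 1 := by
    have := dvd_sub hpr hr1
    simpa using this
  have h3 := Int.le_of_dvd one_pos h2
  have h4 := hp.out.two_le
  omega

theorem cy (p : ℕ) [hp : Fact p.Prime] (j N : ℕ) (hj : 1 ≤ j) (f : ℤ[X]) :
    (∃ h k : ℤ[X], f = C ((p : ℤ) ^ N) * h + cyclotomic (p ^ j) ℤ * k) ∨
    ∃ (g k : ℤ[X]) (v : ℕ) (c : ℤ), v < N * Nat.totient (p ^ j) ∧ ¬ (p : ℤ) ∣ c ∧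
      g * f = C ((p : ℤ) ^ v * c) + cyclotomic (p ^ j) ℤ * k := by
  rcases desc p hj f (N * Nat.totient (p ^ j)) with ⟨v, u, k, hv, h1, h2⟩ | ⟨u, k, h1⟩
  · right
    obtain ⟨g, k', c, hc, hg⟩ := copr p hj u h2
    obtain ⟨Q, hQ⟩ := p_eq p hj
    -- `Q^v (X-1)^v = p^v + Φ s`
    obtain ⟨s, hs⟩ : cyclotomic (p ^ j) ℤ ∣ (Q * (X - 1)) ^ v - (C (p : ℤ)) ^ v := by
      refine (Dvd.intro (-1) ?_).trans (sub_dvd_pow_sub_pow _ _ v)
      rw [hQ]
      ring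
    refine ⟨g * Q ^ v, g * Q ^ v * k + s * (g * u) + C ((p : ℤ) ^ v) * k', v, c, hv, hc, ?_⟩
    have e1 : (Q * (X - 1)) ^ v = C ((p : ℤ) ^ v) + cyclotomic (p ^ j) ℤ * s := by
      rw [← hs, C_pow]; ring
    rw [mul_pow] at e1
    rw [h1, C_mul]
    linear_combination (g * u) * e1 + C ((p : ℤ) ^ v) * hg
  · left
    obtain ⟨h, hh⟩ := pow_phi p hj
    obtain ⟨s, hs⟩ : cyclotomic (p ^ j) ℤ ∣ ((X - 1) ^ Nat.totient (p ^ j)) ^ N -
        (C (p : ℤ) * h) ^ N := by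
      refine (Dvd.intro 1 ?_).trans (sub_dvd_pow_sub_pow _ _ N)
      rw [hh]
      ring
    refine ⟨h ^ N * u, s * u + k, ?_⟩
    have e1 : (X - 1 : ℤ[X]) ^ (N * Nat.totient (p ^ j)) =
        C ((p : ℤ) ^ N) * h ^ N + cyclotomic (p ^ j) ℤ * s := by
      rw [← hs, mul_comm N, pow_mul, C_pow]; ring
    rw [h1, e1]
    ring

end Pool.Agent.Q156.SG.CY

/-- **Job SG-CY.** -/
theorem Pool.Agent.Q156.SG.t_CY : Pool.Agent.Q5.SG.S_CY :=
  fun p _ j N hj f => Pool.Agent.Q156.SG.CY.cy p j N hj f
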